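import Pool.Agent.Lib.MP_a8c702_nt.RG.Step

/-! A lower bound for sums of the quadratic character of a finite field over polynomial values. -/

namespace Pool.Agent.Lib.MP_a8c702_nt.RG

open Polynomial Finset

variable {F : Type} [Field F] [Fintype F] [DecidableEq F]

theorem two_card_le (h2 : ringChar F ≠ 2) (hl : 6 ≤ (Fintype.card F).sqrt) {f : F[X]}
    (h0 : f.coeff 0 ≠ 0) (hn : ∀ c u, f ≠ C c * u ^ 2) (hm1 : 1 ≤ f.natDegree)
    (hm : f.natDegree ≤ (Fintype.card F).sqrt) {a : F} (ha : a ≠ 0) :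
    2 * #{x : F | f.eval x ^ (Fintype.card F / 2) = a} ≤
      Fintype.card F + 11 * f.natDegree * (Fintype.card F).sqrt := by
  have hp : Fintype.card F = 2 * (Fintype.card F / 2) + 1 := by
    have := FiniteField.odd_card_of_char_ne_two h2
    omega
  have h4 := fun d l J => stepanov (d := d) (l := l) (J := J) (a := a) hp h0 hn
  generalize Fintype.card F = p at *
  have h1 := Nat.sqrt_le p
  have h2 := Nat.lt_succ_sqrt p
  set l := p.sqrt
  set m := f.natDegree
  have h3 : 6 * l ≤ p := by nlinarith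
  obtain ⟨d, hd, hd'⟩ : ∃ d, 2 * d + m < p ∧ p ≤ 2 * d + 2 + m := ⟨(p - m - 1) / 2, by omega⟩
  obtain ⟨J, hJ, hJ'⟩ : ∃ J, 2 * J + 2 ≤ l + 6 * m ∧ l + 6 * m ≤ 2 * J + 3 :=
    ⟨(l + 6 * m) / 2 - 1, by omega⟩
  have h4 := h4 d l J hd (by omega) (by
    have e1 : (l + 5 * m) * (d + 1) ≤ 2 * (J + 1) * (d + 1) :=
      Nat.mul_le_mul_right _ (by omega)
    have e2 : m * p ≤ m * (2 * d + 2 + l) := Nat.mul_le_mul_left _ (by omega)
    have e3 : l * l * m ≤ p * m := Nat.mul_le_mul_right _ h1
    have e4 : l * (2 * J + 2) ≤ l * (l + 6 * m) := Nat.mul_le_mul_left _ hJ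
    have e5 : p * 1 ≤ p * m := Nat.mul_le_mul_left _ hm1
    have e6 : 6 * l * m ≤ p * m := Nat.mul_le_mul_right _ h3
    nlinarith) ha
  refine Nat.le_of_mul_le_mul_right ?_ (show 0 < l by omega)
  have e1 : p * (2 * J + 2) ≤ p * (l + 6 * m) := Nat.mul_le_mul_left _ hJ
  have e2 : 2 * (p / 2) * m ≤ p * m := Nat.mul_le_mul_right _ (by omega)
  have e3 : p * m ≤ l * (l + 3) * m := Nat.mul_le_mul_right _ (by nlinarith)
  have e4 : 6 * (l * m) ≤ l * (l * m) := Nat.mul_le_mul_right _ hl
  nlinarith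

theorem sum_ge0 (h2 : ringChar F ≠ 2) (hl : 6 ≤ (Fintype.card F).sqrt) {f : F[X]}
    (h0 : f.coeff 0 ≠ 0) (hn : ∀ c u, f ≠ C c * u ^ 2)
    (hm : f.natDegree ≤ (Fintype.card F).sqrt) :
    -(12 * f.natDegree * (Fintype.card F).sqrt : ℤ) ≤ ∑ x, quadraticChar F (f.eval x) := by
  have hf : f ≠ 0 := by rintro rfl; simp at h0
  have hm1 : 1 ≤ f.natDegree := by
    by_contra h
    exact hn (f.coeff 0) 1 (by rw [one_pow, mul_one]; exact eq_C_of_natDegree_eq_zero (by omega))
  have h1 : #{x : F | f.eval x = 0} ≤ f.natDegree :=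
    card_le_degree_of_subset_roots fun x hx => (mem_roots hf).2 (mem_filter.1 hx).2
  have h3 : ∑ x, (1 - quadraticChar F (f.eval x)) ≤
      ∑ x, (2 * (if f.eval x ^ (Fintype.card F / 2) = -1 then 1 else 0) +
        if f.eval x = 0 then 1 else 0) := by
    refine sum_le_sum fun x _ => ?_
    have h3 := quadraticChar_eq_pow_of_char_ne_two' h2 (f.eval x)
    by_cases h4 : f.eval x = 0
    · rw [if_pos h4, h4, quadraticChar_zero]
      split_ifs <;> simp
    · rw [if_neg h4, ← h3]
      clear h3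
      rcases quadraticChar_dichotomy h4 with h5 | h5 <;> rw [h5]
      · split_ifs <;> simp
      · simp
  rw [sum_sub_distrib, sum_add_distrib, ← mul_sum, sum_boole, sum_boole] at h3
  simp only [sum_const, card_univ, nsmul_eq_mul, mul_one] at h3
  have h4 := two_card_le h2 hl h0 hn hm1 hm (neg_ne_zero.2 one_ne_zero)
  zify at h1 h4 hl hm1
  nlinarith

/-- odd degree, or leading coefficient a square -/
def Pos (f : F[X]) : Prop := f ≠ 0 ∧ (Odd f.natDegree ∨ IsSquare f.leadingCoeff)

theorem sum_ge (h2 : ringChar F ≠ 2) (hl : 6 ≤ (Fintype.card F).sqrt) {f : F[X]} (hf : Pos f)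
    {m : ℕ} (hm : f.natDegree ≤ m) (hm' : m ≤ 6) :
    -(12 * m * (Fintype.card F).sqrt : ℤ) ≤ ∑ x, quadraticChar F (f.eval x) := by
  by_cases hn : ∀ c u, f ≠ C c * u ^ 2
  · obtain ⟨x, hx⟩ : ∃ x, f.eval x ≠ 0 := by
      by_contra! h
      have h1 := Nat.sqrt_le (Fintype.card F)
      exact hf.1 (eq_zero_of_natDegree_lt_card_of_eval_eq_zero f Function.injective_id h
        (by nlinarith))
    have h1 := sum_ge0 h2 hl (f := taylor x f) (by rwa [taylor_coeff_zero]) (fun c u e => by
      refine hn c (taylor (-x) u) ?_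
      have := congrArg (taylor (-x)) e
      rwa [taylor_taylor, neg_add_cancel, taylor_zero, taylor_mul, taylor_C, sq, taylor_mul,
        ← sq] at this) (by rw [natDegree_taylor]; omega)
    rw [natDegree_taylor] at h1
    simp only [taylor_eval] at h1
    refine le_trans ?_ (h1.trans_eq
      (Equiv.sum_comp (Equiv.addRight x) fun y => quadraticChar F (f.eval y)))
    have : (f.natDegree : ℤ) ≤ m := by exact_mod_cast hm
    have h3 : (0 : ℤ) ≤ (Fintype.card F).sqrt := Nat.cast_nonneg _
    nlinarith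
  · push Not at hn
    obtain ⟨c, u, rfl⟩ := hn
    have hc : c ≠ 0 := by rintro rfl; exact hf.1 (by simp)
    have hu : u ≠ 0 := by rintro rfl; exact hf.1 (by simp)
    have h1 : quadraticChar F c = 1 := by
      rcases hf.2 with h | h
      · rw [natDegree_C_mul hc, natDegree_pow] at h
        exact absurd h (by simp)
      · rw [leadingCoeff_mul, leadingCoeff_C, leadingCoeff_pow] at h
        have h3 := (quadraticChar_one_iff_isSquare (mul_ne_zero hc
          (pow_ne_zero 2 (leadingCoeff_ne_zero.2 hu)))).2 h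
        rwa [map_mul, quadraticChar_sq_one' (leadingCoeff_ne_zero.2 hu), mul_one] at h3
    refine le_trans (neg_nonpos.2 (by positivity)) (sum_nonneg fun x _ => ?_)
    rw [eval_mul, eval_C, map_mul, h1, one_mul, eval_pow, map_pow]
    exact sq_nonneg _

/-- many points where two quadratic polynomials are both nonzero squares -/
theorem both (h2 : ringChar F ≠ 2) (hl : 6 ≤ (Fintype.card F).sqrt) {f g : F[X]} (hf : Pos f)
    (hg : Pos g) (hfg : Pos (f * g)) (df : f.natDegree ≤ 2) (dg : g.natDegree ≤ 2) :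
    Fintype.card F ≤ 4 * #{x : F | quadraticChar F (f.eval x) = 1 ∧ quadraticChar F (g.eval x) = 1}
      + 96 * (Fintype.card F).sqrt + 8 := by
  have dfg : (f * g).natDegree ≤ 4 := natDegree_mul_le.trans (by omega)
  have h1 : #{x : F | (f * g).eval x = 0} ≤ 4 :=
    (card_le_degree_of_subset_roots fun x hx => (mem_roots hfg.1).2 (mem_filter.1 hx).2).trans dfg
  have h3 : ∑ x, (1 + quadraticChar F (f.eval x) + quadraticChar F (g.eval x) +
      quadraticChar F ((f * g).eval x)) ≤ ∑ x, (4 * (if quadraticChar F (f.eval x) = 1 ∧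
        quadraticChar F (g.eval x) = 1 then 1 else 0) +
        2 * if (f * g).eval x = 0 then 1 else 0) := by
    refine sum_le_sum fun x _ => ?_
    rw [eval_mul, map_mul]
    by_cases a : f.eval x = 0 <;> by_cases b : g.eval x = 0
    · simp [a, b]
    · rcases quadraticChar_dichotomy b with h | h <;> simp [a, h]
    · rcases quadraticChar_dichotomy a with h | h <;> simp [b, h]
    · rcases quadraticChar_dichotomy a with h | h <;>
        rcases quadraticChar_dichotomy b with h' | h' <;> simp [a, b, h, h']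
  rw [sum_add_distrib, sum_add_distrib, sum_add_distrib, sum_add_distrib, ← mul_sum, ← mul_sum,
    sum_boole, sum_boole] at h3
  simp only [sum_const, card_univ, nsmul_eq_mul, mul_one] at h3
  have e1 := sum_ge h2 hl hf df (by norm_num)
  have e2 := sum_ge h2 hl hg dg (by norm_num)
  have e3 := sum_ge h2 hl hfg dfg (by norm_num)
  zify at h1 ⊢
  push_cast at e1 e2 e3
  linarith

end Pool.Agent.Lib.MP_a8c702_nt.RG
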