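import Pool.Agent.Lib.MP_a8c702_nt.RG.Key

/-! Sets with distinct sums of three distinct elements: counting on lines and classes. -/

namespace Pool.Agent.Lib.MP_a8c702_nt.RG

open Finset

variable {Γ : Type} [AddCommGroup Γ] [DecidableEq Γ] {A : Finset Γ}

/-- distinct three-element subsets have distinct sums -/
def W3 (A : Finset Γ) : Prop :=
  ∀ S ⊆ A, ∀ T ⊆ A, #S = 3 → #T = 3 → ∑ x ∈ S, x = ∑ x ∈ T, x → S = T

theorem W3.three (h : W3 A) {a b c a' b' c' : Γ} (ha : a ∈ A) (hb : b ∈ A) (hc : c ∈ A)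
    (ha' : a' ∈ A) (hb' : b' ∈ A) (hc' : c' ∈ A) (h1 : a ≠ b) (h2 : a ≠ c) (h3 : b ≠ c)
    (h4 : a' ≠ b') (h5 : a' ≠ c') (h6 : b' ≠ c') (e : a + (b + c) = a' + (b' + c')) :
    a = a' ∨ a = b' ∨ a = c' := by
  have m1 : a ∉ ({b, c} : Finset Γ) := by simp [h1, h2]
  have m2 : a' ∉ ({b', c'} : Finset Γ) := by simp [h4, h5]
  have := h {a, b, c} (by simp [insert_subset_iff, ha, hb, hc]) {a', b', c'}
    (by simp [insert_subset_iff, ha', hb', hc']) (card_eq_three.2 ⟨a, b, c, h1, h2, h3, rfl⟩)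
    (card_eq_three.2 ⟨a', b', c', h4, h5, h6, rfl⟩)
    (by rwa [sum_insert m1, sum_insert m2, sum_pair h3, sum_pair h6])
  simpa using (this ▸ mem_insert_self _ _ : a ∈ ({a', b', c'} : Finset Γ))

/-- distinct two-element subsets have distinct sums -/
def W2 (A : Finset Γ) : Prop :=
  ∀ a ∈ A, ∀ b ∈ A, ∀ a' ∈ A, ∀ b' ∈ A, a ≠ b → a' ≠ b' → a + b = a' + b' → a = a' ∨ a = b'

theorem W3.two (h : W3 A) (h5 : 4 < #A) : W2 A := by
  intro a ha b hb a' ha' b' hb' h1 h2 e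
  obtain ⟨c, hc, hn⟩ := exists_mem_notMem_of_card_lt_card
    ((card_le_four (a := a) (b := b) (c := a') (d := b')).trans_lt h5)
  simp only [mem_insert, mem_singleton, not_or] at hn
  rcases h.three ha hb hc ha' hb' hc h1 (Ne.symm hn.1) (Ne.symm hn.2.1) h2 (Ne.symm hn.2.2.1)
    (Ne.symm hn.2.2.2) (by rw [← add_assoc, e, add_assoc]) with k | k | k
  · exact .inl k
  · exact .inr k
  · exact absurd k.symm hn.1

theorem W2.card_le (h : W2 A) {D S : Finset Γ} (hD : D ⊆ A)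
    (hS : ∀ a ∈ D, ∀ b ∈ D, a + b ∈ S) {q : ℕ} (hq : #S ≤ q) : #D ≤ 2 * q.sqrt + 2 := by
  have h1 : #D.offDiag ≤ 2 * #S := by
    refine card_le_mul_card_image_of_maps_to (f := fun x => x.1 + x.2)
      (fun x hx => hS _ (mem_offDiag.1 hx).1 _ (mem_offDiag.1 hx).2.1) 2 fun s _ => ?_
    rcases eq_empty_or_nonempty {x ∈ D.offDiag | x.1 + x.2 = s} with e | ⟨y, hy⟩
    · simp [e]
    refine (card_le_card (t := {y, y.swap}) fun x hx => ?_).trans card_le_two
    obtain ⟨⟨x1, x2, x3⟩, x4⟩ := mem_filter.1 hx |>.imp_left mem_offDiag.1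
    obtain ⟨⟨y1, y2, y3⟩, y4⟩ := mem_filter.1 hy |>.imp_left mem_offDiag.1
    have e := x4.trans y4.symm
    rw [mem_insert, mem_singleton]
    rcases h _ (hD x1) _ (hD x2) _ (hD y1) _ (hD y2) x3 y3 e with k | k
    · exact .inl (Prod.ext k (by rwa [k, add_right_inj] at e))
    · exact .inr (Prod.ext k (by rwa [k, add_comm, add_left_inj] at e))
  rw [offDiag_card] at h1
  have h2 := Nat.lt_succ_sqrt q
  by_contra! h3
  have h4 : #D * #D ≤ 2 * q + #D := by omega
  nlinarith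

variable {K : Type} [Fintype K] [DecidableEq K] {f : K → Γ}

/-- the Sidon property of a parametrised set -/
def Sid (f : K → Γ) : Prop := ∀ a b c d, f a + f b = f c + f d → a = c ∨ a = d ∧ b = c

omit [Fintype K] in
theorem card_le_three {s : Finset K} (a b : K)
    (h : ∀ x ∈ s, ∀ y ∈ s, x ≠ a → x ≠ b → y ≠ a → y ≠ b → x = y) : #s ≤ 3 := by
  have h1 : #(s \ {a, b}) ≤ 1 := card_le_one.2 fun x hx y hy => by
    simp only [mem_sdiff, mem_insert, mem_singleton, not_or] at hx hy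
    exact h x hx.1 y hy.1 hx.2.1 hx.2.2 hy.2.1 hy.2.2
  have h2 := le_card_sdiff ({a, b} : Finset K) s
  have h3 := card_le_two (a := a) (b := b)
  omega

theorem W2.same [Nonempty K] (h : W2 A) (hf : Sid f) {v w : Γ} (hv : v ≠ w) :
    #{x : K | v + f x ∈ A ∧ w + f x ∈ A} ≤ 3 := by
  obtain ⟨a, b, hab⟩ : ∃ a b, ∀ x y, v + f x = w + f y → x = a ∨ x = b := by
    by_cases e : ∃ a b, v + f a = w + f b
    · obtain ⟨a, b, e⟩ := e
      refine ⟨a, b, fun x y e' => ?_⟩
      rcases hf x b a y (by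
        rw [← sub_eq_zero] at e e' ⊢
        rw [← sub_eq_zero.2 (e'.trans e.symm)]
        abel) with k | k
      · exact .inl k
      · rw [k.1] at e'
        exact absurd (add_right_cancel e') hv
    · exact ⟨Classical.arbitrary K, Classical.arbitrary K, fun x y e' => absurd ⟨x, y, e'⟩ e⟩
  refine card_le_three a b fun x hx y hy h1 h2 h3 h4 => ?_
  obtain ⟨x1, x2⟩ := (mem_filter.1 hx).2
  obtain ⟨y1, y2⟩ := (mem_filter.1 hy).2
  rcases h _ x1 _ y2 _ y1 _ x2 (fun e => (hab _ _ e).elim h1 h2) (fun e => (hab _ _ e).elim h3 h4)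
    (by abel) with k | k
  · rcases hf x x y x (by rw [add_left_cancel k]) with k | k
    exacts [k, k.2]
  · exact absurd (add_right_cancel k) hv

theorem W2.opp [Nonempty K] (h : W2 A) (hf : Sid f) (v w : Γ) :
    #{x : K | v + f x ∈ A ∧ w + -f x ∈ A} ≤ 3 := by
  obtain ⟨a, b, hab⟩ : ∃ a b, ∀ x y, v + f x = w + -f y → x = a ∨ x = b := by
    by_cases e : ∃ a b, v + f a = w + -f b
    · obtain ⟨a, b, e⟩ := e
      refine ⟨a, b, fun x y e' => (hf x y a b ?_).imp_right And.left⟩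
      rw [← sub_eq_zero] at e e' ⊢
      rw [← sub_eq_zero.2 (e'.trans e.symm)]
      abel
    · exact ⟨Classical.arbitrary K, Classical.arbitrary K, fun x y e' => absurd ⟨x, y, e'⟩ e⟩
  refine card_le_three a b fun x hx y hy h1 h2 h3 h4 => ?_
  obtain ⟨x1, x2⟩ := (mem_filter.1 hx).2
  obtain ⟨y1, y2⟩ := (mem_filter.1 hy).2
  rcases h _ x1 _ x2 _ y1 _ y2 (fun e => (hab _ _ e).elim h1 h2) (fun e => (hab _ _ e).elim h3 h4)
    (by abel) with k | k
  · rcases hf x x y x (by rw [add_left_cancel k]) with k | k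
    exacts [k, k.2]
  · exact ((hab _ _ k).elim h1 h2).elim

omit [Fintype K] in
theorem bonf {I : Type} [DecidableEq I] (X : I → Finset K) (h : ∀ i j, i ≠ j → #(X i ∩ X j) ≤ 3)
    (Λ : Finset I) : 2 * ∑ i ∈ Λ, #(X i) ≤ 2 * #(Λ.biUnion X) + 3 * #Λ ^ 2 := by
  induction Λ using Finset.induction_on with
  | empty => simp
  | insert i Λ hi ih =>
    rw [sum_insert hi, biUnion_insert, card_insert_of_notMem hi]
    have h1 := card_union_add_card_inter (X i) (Λ.biUnion X)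
    have h2 : #(X i ∩ Λ.biUnion X) ≤ #Λ * 3 := by
      rw [inter_biUnion]
      exact card_biUnion_le_card_mul _ _ _ fun j hj => h i j fun e => hi (e ▸ hj)
    nlinarith

theorem W2.lines [Nonempty K] (h : W2 A) (hf : Sid f) (P M : Finset Γ) :
    2 * #{a ∈ A | (∃ v ∈ P, ∃ x, a = v + f x) ∨ ∃ w ∈ M, ∃ x, a = w + -f x} ≤
      2 * Fintype.card K + 3 * (#P + #M) ^ 2 := by
  let pt : Γ ⊕ Γ → K → Γ := Sum.elim (fun v x => v + f x) fun w x => w + -f x
  have hf' : Sid fun x => -f x := fun a b c d e => hf a b c d (by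
    rw [← neg_inj, neg_add, neg_add]; exact e)
  have h1 := bonf (fun i => ({x | pt i x ∈ A} : Finset K)) (fun i j hij => by
    rw [← filter_and]
    rcases i with v | v <;> rcases j with w | w
    · exact h.same hf fun e => hij (by rw [e])
    · exact h.opp hf v w
    · exact (congrArg card (filter_congr fun x _ => and_comm)).trans_le (h.opp hf w v)
    · exact h.same hf' fun e => hij (by rw [e])) (P.disjSum M)
  rw [card_disjSum] at h1
  refine le_trans (Nat.mul_le_mul_left 2 ?_) (h1.trans (by gcongr; exact card_le_univ _))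
  refine (card_le_card (t := (P.disjSum M).biUnion fun i =>
    ({x | pt i x ∈ A} : Finset K).image (pt i)) fun a ha => ?_).trans
    (card_biUnion_le.trans (sum_le_sum fun i _ => card_image_le))
  obtain ⟨ha, ⟨v, hv, x, rfl⟩ | ⟨v, hv, x, rfl⟩⟩ := mem_filter.1 ha
  · exact mem_biUnion.2 ⟨.inl v, inl_mem_disjSum.2 hv,
      mem_image.2 ⟨x, mem_filter.2 ⟨mem_univ _, ha⟩, rfl⟩⟩
  · exact mem_biUnion.2 ⟨.inr v, inr_mem_disjSum.2 hv,
      mem_image.2 ⟨x, mem_filter.2 ⟨mem_univ _, ha⟩, rfl⟩⟩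

end Pool.Agent.Lib.MP_a8c702_nt.RG
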