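import Pool.Agent.Lib.MP_a8c702_nt.RG.Char

/-! Pencils of monic quadratics in a cubic extension of a finite field. -/

namespace Pool.Agent.Lib.MP_a8c702_nt.RG

open Polynomial Finset

variable {K L : Type} [Field K] [Field L] (ι : K →+* L) (θ : L)

/-- `1, θ, θ²` is a basis -/
structure Bas : Prop where
  ind : ∀ a b c : K, ι a + ι b * θ + ι c * θ ^ 2 = 0 → a = 0 ∧ b = 0 ∧ c = 0
  sp : ∀ z : L, ∃ a b c : K, z = ι a + ι b * θ + ι c * θ ^ 2

theorem bas [Algebra K L] (h3 : Module.finrank K L = 3) (hθ : θ ∉ Set.range (algebraMap K L)) :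
    Bas (algebraMap K L) θ := by
  have : FiniteDimensional K L := Module.finite_of_finrank_pos (by omega)
  have hi : IsIntegral K θ := Algebra.IsIntegral.isIntegral θ
  have hd : (minpoly K θ).natDegree = 3 := by
    have h1 := minpoly.degree_dvd hi
    rw [h3] at h1
    rcases (Nat.dvd_prime Nat.prime_three).1 h1 with h | h
    · exact absurd (minpoly.natDegree_eq_one_iff.1 h) hθ
    · exact h
  have hl : LinearIndependent K fun i : Fin 3 => θ ^ (i : ℕ) := by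
    have := linearIndependent_pow (K := K) θ
    rwa [hd] at this
  refine ⟨fun a b c h => ?_, fun z => ?_⟩
  · have := Fintype.linearIndependent_iff.1 hl ![a, b, c] (by
      simpa [Fin.sum_univ_three, Algebra.smul_def] using h)
    exact ⟨this 0, this 1, this 2⟩
  · have h1 := hl.span_eq_top_of_card_eq_finrank (by simp [h3])
    obtain ⟨c, hc⟩ := (Submodule.mem_span_range_iff_exists_fun K).1
      (h1 ▸ Submodule.mem_top : z ∈ _)
    exact ⟨c 0, c 1, c 2, by simpa [Fin.sum_univ_three, Algebra.smul_def] using hc.symm⟩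

variable {ι θ}

theorem Bas.pencil (h : Bas ι θ) {d : L} (hd : d ∉ Set.range ι) :
    ∃ s0 p0 s1 p1 s0' p0' s1' p1' : K, (s1 ≠ 0 ∨ p1 ≠ 0) ∧
      d * (θ ^ 2 - ι s0 * θ + ι p0) = θ ^ 2 - ι s0' * θ + ι p0' ∧
      d * (ι p1 - ι s1 * θ) = ι p1' - ι s1' * θ := by
  obtain ⟨a0, a1, a2, ha⟩ := h.sp d
  obtain ⟨b0, b1, b2, hb⟩ := h.sp (d * θ)
  obtain ⟨c0, c1, c2, hc⟩ := h.sp (d * θ ^ 2)
  have hn : a2 ≠ 0 ∨ b2 ≠ 0 := by
    by_contra! hn
    obtain ⟨rfl, rfl⟩ := hn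
    have := (h.ind (-b0) (a0 - b1) a1 (by
      simp only [map_zero, map_neg, map_sub] at *
      linear_combination hb - θ * ha)).2.2
    exact hd ⟨a0, by rw [ha, this]; simp⟩
  obtain ⟨s0, p0, e⟩ : ∃ s0 p0, c2 - s0 * b2 + p0 * a2 = 1 := by
    rcases hn with hn | hn
    · exact ⟨0, (1 - c2) / a2, by field_simp; ring⟩
    · exact ⟨(c2 - 1) / b2, 0, by field_simp; ring⟩
  have e' := congrArg ι e
  refine ⟨s0, p0, a2, b2, -(c1 - s0 * b1 + p0 * a1), c0 - s0 * b0 + p0 * a0, a2 * b1 - b2 * a1,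
    b2 * a0 - a2 * b0, hn, ?_, ?_⟩
  · simp only [map_add, map_sub, map_mul, map_neg, map_one] at e' ⊢
    linear_combination hc - ι s0 * hb + ι p0 * ha + θ ^ 2 * e'
  · simp only [map_sub, map_mul]
    linear_combination ι b2 * ha - ι a2 * hb

theorem Bas.tangent (h : Bas ι θ) {d : L} {s0 p0 s1 p1 s0' p0' s1' p1' x : K}
    (hn : s1 ≠ 0 ∨ p1 ≠ 0) (e0 : d * (θ ^ 2 - ι s0 * θ + ι p0) = θ ^ 2 - ι s0' * θ + ι p0')
    (e1 : d * (ι p1 - ι s1 * θ) = ι p1' - ι s1' * θ) (h0 : x ^ 2 - s0 * x + p0 = 0)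
    (h1 : p1 - s1 * x = 0) : ∃ x', d * (θ - ι x) = θ - ι x' := by
  have hs : s1 ≠ 0 := by
    rintro rfl
    simp at h1 hn
    exact hn h1
  have hs' : ι s1 ≠ 0 := (map_ne_zero ι).2 hs
  have h0' := congrArg ι h0
  have h1' := congrArg ι h1
  simp only [map_add, map_sub, map_mul, map_pow, map_zero] at h0' h1'
  have e2 : ι s1 * (d * (θ - ι x)) = ι s1' * θ - ι p1' := by
    linear_combination d * h1' - e1
  have e3 := (h.ind (p1' * (s0 - x) - s1 * p0') (s1 * s0' - p1' - s1' * (s0 - x)) (s1' - s1) (by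
    simp only [map_sub, map_mul]
    linear_combination ι s1 * e0 - (θ - (ι s0 - ι x)) * e2 - ι s1 * d * h0')).2.2
  refine ⟨p1' / s1, mul_left_cancel₀ hs' ?_⟩
  rw [e2, sub_eq_zero.1 e3, map_div₀]
  field_simp

/-- the discriminant along a pencil -/
noncomputable def dsc (s0 p0 s1 p1 : K) : K[X] :=
  C (s1 ^ 2) * X ^ 2 + C (2 * s0 * s1 - 4 * p1) * X + C (s0 ^ 2 - 4 * p0)

theorem dsc_two {s1 : K} (s0 p0 p1 : K) (h : s1 ≠ 0) : dsc s0 p0 s1 p1 ≠ 0 ∧
    (dsc s0 p0 s1 p1).natDegree = 2 ∧ IsSquare (dsc s0 p0 s1 p1).leadingCoeff := by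
  have h1 : (dsc s0 p0 s1 p1).natDegree = 2 := natDegree_quadratic (pow_ne_zero 2 h)
  refine ⟨fun e => by simp [e] at h1, h1, s1, ?_⟩
  rw [dsc, leadingCoeff_quadratic (pow_ne_zero 2 h), sq]

theorem dsc_one {p1 : K} (h2 : (2 : K) ≠ 0) (s0 p0 : K) (h : p1 ≠ 0) : dsc s0 p0 0 p1 ≠ 0 ∧
    (dsc s0 p0 0 p1).natDegree = 1 := by
  have h4 : (4 : K) ≠ 0 := by
    rw [show (4 : K) = 2 * 2 by norm_num]
    exact mul_ne_zero h2 h2
  have h1 : (dsc s0 p0 0 p1).natDegree = 1 := by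
    rw [dsc, zero_pow two_ne_zero, C_0, zero_mul, zero_add]
    exact natDegree_linear (by simp [h, h4])
  exact ⟨fun e => by simp [e] at h1, h1⟩

theorem split [Fintype K] [DecidableEq K] (h2 : (2 : K) ≠ 0) {s0 p0 s1 p1 t : K}
    (h : quadraticChar K ((dsc s0 p0 s1 p1).eval t) = 1) :
    ∃ x y, x ≠ y ∧ x + y = s0 + s1 * t ∧ x * y = p0 + p1 * t := by
  have h0 : (dsc s0 p0 s1 p1).eval t ≠ 0 := fun e => by simp [e] at h
  obtain ⟨δ, hδ⟩ := (quadraticChar_one_iff_isSquare h0).1 h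
  have hδ0 : δ ≠ 0 := fun e => h0 (by simp [hδ, e])
  simp only [dsc, eval_add, eval_mul, eval_C, eval_pow, eval_X] at hδ
  have h4 : (4 : K) ≠ 0 := by
    rw [show (4 : K) = 2 * 2 by norm_num]
    exact mul_ne_zero h2 h2
  refine ⟨(s0 + s1 * t + δ) / 2, (s0 + s1 * t - δ) / 2, fun e => hδ0 ?_, ?_, ?_⟩
  · field_simp at e
    exact mul_left_cancel₀ h2 (by linear_combination e)
  · field_simp
    ring
  · field_simp
    linear_combination hδ

theorem bad_le [Fintype K] [DecidableEq K] {s0 p0 s1 p1 : K} (Y : Finset K)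
    (h : ∀ x, x ^ 2 - s0 * x + p0 = 0 → p1 - s1 * x ≠ 0) :
    #(Y.biUnion fun x => {t : K | x ^ 2 - (s0 + s1 * t) * x + (p0 + p1 * t) = 0}) ≤ #Y := by
  refine (card_biUnion_le_card_mul _ _ 1 fun x _ => card_le_one.2 fun t ht u hu => ?_).trans
    (by rw [mul_one])
  have a := (mem_filter.1 ht).2
  have b := (mem_filter.1 hu).2
  by_cases e : p1 - s1 * x = 0
  · exact absurd e (h x (by linear_combination a - t * e))
  · exact mul_left_cancel₀ e (by linear_combination a - b)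

theorem Bas.key [Fintype K] [DecidableEq K] (h : Bas ι θ) (hc : ringChar K ≠ 2)
    (hl : 6 ≤ (Fintype.card K).sqrt) (Y : Finset K)
    (hY : 8 * #Y + 96 * (Fintype.card K).sqrt + 8 < Fintype.card K) {d : L}
    (hd : d ∉ Set.range ι) (hd1 : ∀ x x', d * (θ - ι x) ≠ θ - ι x') :
    ∃ x1 x2 x3 x4, x1 ∉ Y ∧ x2 ∉ Y ∧ x3 ∉ Y ∧ x4 ∉ Y ∧ x1 ≠ x2 ∧ x3 ≠ x4 ∧
      d * ((θ - ι x1) * (θ - ι x2)) = (θ - ι x3) * (θ - ι x4) := by
  have h2 : (2 : K) ≠ 0 := Ring.two_ne_zero hc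
  have hd0 : d ≠ 0 := fun e => hd ⟨0, by simp [e]⟩
  obtain ⟨s0, p0, s1, p1, s0', p0', s1', p1', hn, e0, e1⟩ := h.pencil hd
  have hn' : s1' ≠ 0 ∨ p1' ≠ 0 := by
    by_contra! hn'
    rw [hn'.1, hn'.2, map_zero, zero_mul, sub_zero, mul_eq_zero] at e1
    have := h.ind p1 (-s1) 0 (by
      simp only [map_neg, map_zero]
      linear_combination e1.resolve_left hd0)
    simp [this.1, neg_eq_zero.1 this.2.1] at hn
  have hb : s1 ≠ 0 ∨ s1' ≠ 0 := by
    by_contra! hb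
    obtain ⟨rfl, rfl⟩ := hb
    have hp : p1 ≠ 0 := by simpa using hn
    refine hd ⟨p1' / p1, ?_⟩
    rw [map_div₀, div_eq_iff ((map_ne_zero ι).2 hp)]
    simpa using e1.symm
  have t1 : ∀ x, x ^ 2 - s0 * x + p0 = 0 → p1 - s1 * x ≠ 0 := fun x a b => by
    obtain ⟨x', e⟩ := h.tangent hn e0 e1 a b
    exact hd1 _ _ e
  have t2 : ∀ x, x ^ 2 - s0' * x + p0' = 0 → p1' - s1' * x ≠ 0 := fun x a b => by
    obtain ⟨x', e⟩ := h.tangent (d := d⁻¹) (s0' := s0) (p0' := p0) (s1' := s1) (p1' := p1) hn'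
      (by rw [← e0, inv_mul_cancel_left₀ hd0])
      (by rw [← e1, inv_mul_cancel_left₀ hd0]) a b
    exact hd1 x' x (by rw [← e, mul_inv_cancel_left₀ hd0])
  have hT : Fintype.card K ≤ 4 * #{t : K | quadraticChar K ((dsc s0 p0 s1 p1).eval t) = 1 ∧
      quadraticChar K ((dsc s0' p0' s1' p1').eval t) = 1} + 96 * (Fintype.card K).sqrt + 8 := by
    by_cases a : s1 = 0 <;> by_cases b : s1' = 0
    · simp [a, b] at hb
    · subst a
      obtain ⟨u1, u2⟩ := dsc_one h2 s0 p0 (hn.resolve_left fun e => e rfl)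
      obtain ⟨v1, v2, v3⟩ := dsc_two s0' p0' p1' b
      exact both hc hl ⟨u1, .inl (by rw [u2]; decide)⟩ ⟨v1, .inr v3⟩ ⟨mul_ne_zero u1 v1,
        .inl (by rw [natDegree_mul u1 v1, u2, v2]; decide)⟩ (by omega) v2.le
    · subst b
      obtain ⟨u1, u2⟩ := dsc_one h2 s0' p0' (hn'.resolve_left fun e => e rfl)
      obtain ⟨v1, v2, v3⟩ := dsc_two s0 p0 p1 a
      exact both hc hl ⟨v1, .inr v3⟩ ⟨u1, .inl (by rw [u2]; decide)⟩ ⟨mul_ne_zero v1 u1,
        .inl (by rw [natDegree_mul v1 u1, u2, v2]; decide)⟩ v2.le (by omega)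
    · obtain ⟨u1, u2, u3⟩ := dsc_two s0 p0 p1 a
      obtain ⟨v1, v2, v3⟩ := dsc_two s0' p0' p1' b
      exact both hc hl ⟨u1, .inr u3⟩ ⟨v1, .inr v3⟩ ⟨mul_ne_zero u1 v1,
        .inr (by rw [leadingCoeff_mul]; exact u3.mul v3)⟩ u2.le v2.le
  have b1 := bad_le Y t1
  have b2 := bad_le Y t2
  obtain ⟨t, ht, hu⟩ := exists_mem_notMem_of_card_lt_card
    (((card_union_le _ _).trans (add_le_add b1 b2)).trans_lt (show #Y + #Y <
      #{t : K | quadraticChar K ((dsc s0 p0 s1 p1).eval t) = 1 ∧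
        quadraticChar K ((dsc s0' p0' s1' p1').eval t) = 1} by omega))
  obtain ⟨x1, x2, n1, a1, m1⟩ := split h2 (mem_filter.1 ht).2.1
  obtain ⟨x3, x4, n2, a2, m2⟩ := split h2 (mem_filter.1 ht).2.2
  simp only [mem_union, mem_biUnion, mem_filter, mem_univ, true_and, not_or, not_exists,
    not_and] at hu
  refine ⟨x1, x2, x3, x4, fun y => hu.1 x1 y ?_, fun y => hu.1 x2 y ?_, fun y => hu.2 x3 y ?_,
    fun y => hu.2 x4 y ?_, n1, n2, ?_⟩
  · rw [← a1, ← m1]; ring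
  · rw [← a1, ← m1]; ring
  · rw [← a2, ← m2]; ring
  · rw [← a2, ← m2]; ring
  · have a1' := congrArg ι a1
    have m1' := congrArg ι m1
    have a2' := congrArg ι a2
    have m2' := congrArg ι m2
    simp only [map_add, map_mul] at a1' m1' a2' m2'
    linear_combination e0 + ι t * e1 - d * θ * a1' + d * m1' + θ * a2' - m2'

end Pool.Agent.Lib.MP_a8c702_nt.RG
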