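import Pool.Agent.Lib.MP_a8c702_nt.RG.Comb

/-! Rigidity of Bose-Chowla sets among sets with distinct sums of three distinct elements. -/

namespace Pool.Agent.Lib.MP_a8c702_nt.RG

open Finset

variable {K L : Type} [Field K] [Field L] {ι : K →+* L} {θ : L}

theorem Bas.ne (h : Bas ι θ) (x : K) : θ - ι x ≠ 0 := fun e => by
  have := (h.ind (-x) 1 0 (by simp only [map_neg, map_one, map_zero]; linear_combination e)).2.1
  exact one_ne_zero this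

theorem Bas.two (h : Bas ι θ) {a b c d : K}
    (e : (θ - ι a) * (θ - ι b) = (θ - ι c) * (θ - ι d)) : a = c ∨ a = d ∧ b = c := by
  obtain ⟨h1, h2, -⟩ := h.ind (a * b - c * d) (c + d - a - b) 0 (by
    simp only [map_sub, map_add, map_mul, map_zero]
    linear_combination e)
  have h3 : (a - c) * (a - d) = 0 := by linear_combination -h1 - a * h2
  rcases mul_eq_zero.1 h3 with k | k
  · exact .inl (sub_eq_zero.1 k)
  · exact .inr ⟨sub_eq_zero.1 k, by linear_combination -h2 - k⟩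

theorem Bas.tri (h : Bas ι θ) {z1 z2 z : L} (h1 : z1 ≠ 0) (h2 : z2 ≠ 0) (h0 : z ≠ 0)
    {a b c e f g : K} (hab : a ≠ b) (e1 : z1 * (θ - ι b) = z2 * (θ - ι a))
    (e2 : z2 * (θ - ι e) = z * (θ - ι c)) (e3 : z * (θ - ι f) = z1 * (θ - ι g)) :
    a = e ∨ a = f := by
  have e4 : (θ - ι b) * (θ - ι e) * (θ - ι f) = (θ - ι a) * (θ - ι c) * (θ - ι g) := by
    refine mul_left_cancel₀ (mul_ne_zero (mul_ne_zero h1 h2) h0) ?_
    calc _ = (z1 * (θ - ι b)) * (z2 * (θ - ι e)) * (z * (θ - ι f)) := by ring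
      _ = _ := by rw [e1, e2, e3]; ring
  obtain ⟨k1, k2, k3⟩ := h.ind (a * c * g - b * e * f)
    (b * e + b * f + e * f - (a * c + a * g + c * g)) (a + c + g - (b + e + f)) (by
    simp only [map_sub, map_add, map_mul]
    linear_combination e4)
  have k4 : (a - b) * ((a - e) * (a - f)) = 0 := by linear_combination k1 + a * k2 + a ^ 2 * k3
  exact (mul_eq_zero.1 ((mul_eq_zero.1 k4).resolve_left (sub_ne_zero.2 hab))).imp
    sub_eq_zero.1 sub_eq_zero.1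

/-- a set whose ratios are scalars or ratios of two points of the line -/
theorem Bas.cover (h : Bas ι θ) (B : Set L) (h0 : ∀ z ∈ B, z ≠ 0) (hB : ∀ z ∈ B, ∀ z' ∈ B,
    (∃ k, z = z' * ι k) ∨ ∃ x x', z * (θ - ι x) = z' * (θ - ι x')) :
    ∃ u1 u2 v w : L, u1 ≠ 0 ∧ u2 ≠ 0 ∧ v ≠ 0 ∧ w ≠ 0 ∧ ∀ z ∈ B, (∃ k, z = u1 * ι k) ∨
      (∃ k, z = u2 * ι k) ∨ (∃ x, z = v * (θ - ι x)) ∨ ∃ x, z * (θ - ι x) = w := by
  by_cases hc : ∀ z ∈ B, ∀ z' ∈ B, ∃ k, z = z' * ι k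
  · rcases B.eq_empty_or_nonempty with rfl | ⟨u, hu⟩
    · exact ⟨1, 1, 1, 1, by simp⟩
    · exact ⟨u, 1, 1, 1, h0 u hu, one_ne_zero, one_ne_zero, one_ne_zero,
        fun z hz => .inl (hc z hz u hu)⟩
  push Not at hc
  obtain ⟨z1, m1, z2, m2, hn⟩ := hc
  obtain ⟨b, a, e1⟩ := (hB z1 m1 z2 m2).resolve_left (by simpa using hn)
  have hab : a ≠ b := by
    rintro rfl
    exact hn 1 (by rw [map_one, mul_one]; exact mul_right_cancel₀ (h.ne a) e1)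
  refine ⟨z1, z2, z1 / (θ - ι a), z2 * (θ - ι a), h0 _ m1, h0 _ m2, div_ne_zero (h0 _ m1) (h.ne a),
    mul_ne_zero (h0 _ m2) (h.ne a), fun z hz => ?_⟩
  rcases hB z hz z1 m1 with k | ⟨f, g, e3⟩
  · exact .inl k
  rcases hB z hz z2 m2 with k | ⟨c, e, e2⟩
  · exact .inr (.inl k)
  rcases h.tri (h0 _ m1) (h0 _ m2) (h0 _ hz) hab e1 e2.symm e3 with rfl | rfl
  · exact .inr (.inr (.inr ⟨c, e2⟩))
  · refine .inr (.inr (.inl ⟨g, ?_⟩))
    rw [div_mul_eq_mul_div, eq_div_iff (h.ne a), e3]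

variable {Γ : Type} [AddCommGroup Γ] [DecidableEq Γ] {A : Finset Γ} {φ : L → Γ}
  [Fintype K] [DecidableEq K]

theorem Bas.ratio (h : Bas ι θ) (hc : ringChar K ≠ 2) (hl : 6 ≤ (Fintype.card K).sqrt)
    (hm : ∀ a b, a ≠ 0 → b ≠ 0 → φ (a * b) = φ a + φ b)
    (hi : ∀ a b, a ≠ 0 → b ≠ 0 → φ a = φ b → a = b) (hA : W3 A) {γ0 : Γ} {X : Finset K}
    (hX : ∀ x ∈ X, γ0 + φ (θ - ι x) ∈ A)
    (hq : 7 * Fintype.card K + 96 * (Fintype.card K).sqrt + 24 < 8 * #X) {γ : Γ} {z z' : L}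
    (h0 : z ≠ 0) (h0' : z' ≠ 0) (hz : γ + φ z ∈ A) (hz' : γ + φ z' ∈ A) :
    (∃ k, z = z' * ι k) ∨ ∃ x x', z * (θ - ι x) = z' * (θ - ι x') := by
  by_contra! hn
  have inj : ∀ x y, γ0 + φ (θ - ι x) = γ0 + φ (θ - ι y) → x = y := fun x y e =>
    ι.injective (sub_right_injective (hi _ _ (h.ne x) (h.ne y) (add_left_cancel e)))
  have one : ∀ a : Γ, #{x : K | γ0 + φ (θ - ι x) = a} ≤ 1 := fun a =>
    card_le_one.2 fun x hx y hy => inj x y ((mem_filter.1 hx).2.trans (mem_filter.1 hy).2.symm)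
  have c1 := card_union_le Xᶜ (({x : K | γ0 + φ (θ - ι x) = γ + φ z} : Finset K) ∪
    ({x : K | γ0 + φ (θ - ι x) = γ + φ z'} : Finset K))
  have c2 := card_union_le ({x : K | γ0 + φ (θ - ι x) = γ + φ z} : Finset K)
    {x : K | γ0 + φ (θ - ι x) = γ + φ z'}
  have c3 := card_add_card_compl X
  have c4 := one (γ + φ z)
  have c5 := one (γ + φ z')
  obtain ⟨x1, x2, x3, x4, n1, n2, n3, n4, d1, d2, e⟩ := h.key hc hl (Xᶜ ∪
    (({x : K | γ0 + φ (θ - ι x) = γ + φ z} : Finset K) ∪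
      ({x : K | γ0 + φ (θ - ι x) = γ + φ z'} : Finset K))) (by omega)
    (d := z / z') (by
      rintro ⟨k, hk⟩
      exact hn.1 k (by rw [hk, mul_div_cancel₀ _ h0'])) (fun x x' e => hn.2 x x' (by
      rw [← e]; field_simp))
  simp only [mem_union, mem_compl, mem_filter, mem_univ, true_and, not_or, not_not] at n1 n2 n3 n4
  have e' : z * ((θ - ι x1) * (θ - ι x2)) = z' * ((θ - ι x3) * (θ - ι x4)) := by
    rw [← e]; field_simp
  have e2 := congrArg φ e'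
  rw [hm _ _ h0 (mul_ne_zero (h.ne _) (h.ne _)), hm _ _ h0' (mul_ne_zero (h.ne _) (h.ne _)),
    hm _ _ (h.ne _) (h.ne _), hm _ _ (h.ne _) (h.ne _)] at e2
  rcases hA.three hz (hX _ n1.1) (hX _ n2.1) hz' (hX _ n3.1) (hX _ n4.1) (Ne.symm n1.2.1)
    (Ne.symm n2.2.1) (fun k => d1 (inj _ _ k)) (Ne.symm n3.2.2) (Ne.symm n4.2.2)
    (fun k => d2 (inj _ _ k)) (by
      rw [← sub_eq_zero] at e2 ⊢
      rw [← e2]
      abel) with k | k | k
  · exact hn.1 1 (by rw [map_one, mul_one]; exact hi _ _ h0 h0' (add_left_cancel k))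
  · exact n3.2.1 k.symm
  · exact n4.2.1 k.symm

theorem Bas.main (h : Bas ι θ) (hc : ringChar K ≠ 2)
    (hm : ∀ a b, a ≠ 0 → b ≠ 0 → φ (a * b) = φ a + φ b)
    (hi : ∀ a b, a ≠ 0 → b ≠ 0 → φ a = φ b → a = b) (hA : W3 A) {γ0 : Γ} {X : Finset K}
    (hX : ∀ x ∈ X, γ0 + φ (θ - ι x) ∈ A)
    (hq : 7 * Fintype.card K + 96 * (Fintype.card K).sqrt + 24 < 8 * #X) {C : Finset Γ}
    (hC : ∀ a ∈ A, ∃ γ ∈ C, ∃ z, z ≠ 0 ∧ a = γ + φ z) :
    #A ≤ Fintype.card K + 6 * #C ^ 2 + 4 * #C * ((Fintype.card K).sqrt + 1) := by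
  classical
  have hXq := card_le_univ X
  have hl : 6 ≤ (Fintype.card K).sqrt := by
    have := Nat.lt_succ_sqrt (Fintype.card K)
    by_contra! hl
    nlinarith
  have hXA : #X ≤ #A := card_le_card_of_injOn _ hX fun x _ y _ e =>
    ι.injective (sub_right_injective (hi _ _ (h.ne x) (h.ne y) (add_left_cancel e)))
  have h2 := hA.two (by omega)
  choose u1 u2 v w n1 n2 n3 n4 H using fun γ => h.cover {z | z ≠ 0 ∧ γ + φ z ∈ A}
    (fun z hz => hz.1) fun z hz z' hz' => h.ratio hc hl hm hi hA hX hq hz.1 hz'.1 hz.2 hz'.2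
  let D : Γ → Finset Γ := fun u => {a ∈ A | ∃ k, ι k ≠ 0 ∧ a = u + φ (ι k)}
  have hD : ∀ u, #(D u) ≤ 2 * (Fintype.card K).sqrt + 2 := fun u =>
    h2.card_le (S := univ.image fun k => u + u + φ (ι k)) (filter_subset _ _) (fun a ha b hb => by
      obtain ⟨k, hk, rfl⟩ := (mem_filter.1 ha).2
      obtain ⟨j, hj, rfl⟩ := (mem_filter.1 hb).2
      refine mem_image.2 ⟨k * j, mem_univ _, ?_⟩
      rw [map_mul, hm _ _ hk hj]
      abel) card_image_le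
  have hf : Sid fun x => φ (θ - ι x) := fun a b c d e => h.two (hi _ _
    (mul_ne_zero (h.ne _) (h.ne _)) (mul_ne_zero (h.ne _) (h.ne _))
    (by rwa [hm _ _ (h.ne _) (h.ne _), hm _ _ (h.ne _) (h.ne _)]))
  have c1 := h2.lines hf (C.image fun γ => γ + φ (v γ)) (C.image fun γ => γ + φ (w γ))
  have c2 : #(C.biUnion fun γ => D (γ + φ (u1 γ)) ∪ D (γ + φ (u2 γ))) ≤
      #C * (4 * (Fintype.card K).sqrt + 4) := card_biUnion_le_card_mul _ _ _ fun γ _ =>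
    (card_union_le _ _).trans ((add_le_add (hD _) (hD _)).trans (by omega))
  have c3 := card_image_le (s := C) (f := fun γ => γ + φ (v γ))
  have c4 := card_image_le (s := C) (f := fun γ => γ + φ (w γ))
  have c5 := Nat.pow_le_pow_left (add_le_add c3 c4) 2
  refine (card_le_card fun a ha => mem_union.2 ?_).trans ((card_union_le _ _).trans
    ((add_le_add c2 (Nat.le_of_mul_le_mul_left (c1.trans (show _ ≤ 2 * (Fintype.card K +
      6 * #C ^ 2) by nlinarith)) two_pos)).trans_eq (by ring)))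
  obtain ⟨γ, hγ, z, hz, rfl⟩ := hC a ha
  have cl : ∀ u k, u ≠ 0 → z = u * ι k → γ + φ z ∈ D (γ + φ u) := fun u k hu e => by
    have hk : ι k ≠ 0 := fun e' => hz (by rw [e, e', mul_zero])
    exact mem_filter.2 ⟨ha, k, hk, by rw [e, hm _ _ hu hk, add_assoc]⟩
  rcases H γ z ⟨hz, ha⟩ with ⟨k, e⟩ | ⟨k, e⟩ | ⟨x, e⟩ | ⟨x, e⟩
  · exact .inl (mem_biUnion.2 ⟨γ, hγ, mem_union_left _ (cl _ k (n1 γ) e)⟩)
  · exact .inl (mem_biUnion.2 ⟨γ, hγ, mem_union_right _ (cl _ k (n2 γ) e)⟩)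
  · exact .inr (mem_filter.2 ⟨ha, .inl ⟨_, mem_image_of_mem _ hγ, x, by
      rw [e, hm _ _ (n3 γ) (h.ne x), add_assoc]⟩⟩)
  · exact .inr (mem_filter.2 ⟨ha, .inr ⟨_, mem_image_of_mem _ hγ, x, by
      rw [← e, hm _ _ hz (h.ne x)]; abel⟩⟩)

end Pool.Agent.Lib.MP_a8c702_nt.RG
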