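import Mathlib

/-! Stepanov's bound for the number of `x` in a finite field with `f(x)^((q-1)/2) = a`. -/

namespace Pool.Agent.Lib.MP_a8c702_nt.RG

open Polynomial Finset

variable {F : Type} [Field F]

theorem pow_dvd_hasse (f u : F[X]) : ∀ n k : ℕ, f ^ (n - k) ∣ hasseDeriv k (f ^ n * u)
  | 0, k => by simp
  | n + 1, k => by
    rw [pow_succ', mul_assoc, hasseDeriv_mul]
    refine dvd_sum fun x hx => ?_
    have h := mem_antidiagonal.1 hx
    rcases Nat.eq_zero_or_pos x.1 with h0 | h0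
    · rw [h0, hasseDeriv_zero']
      refine (pow_dvd_pow f (show n + 1 - k ≤ (n - x.2) + 1 by omega)).trans ?_
      rw [pow_succ']
      exact mul_dvd_mul_left _ (pow_dvd_hasse f u n x.2)
    · exact ((pow_dvd_pow f (show n + 1 - k ≤ n - x.2 by omega)).trans
        (pow_dvd_hasse f u n x.2)).mul_left _

theorem pair_zero [Fintype F] {h d : ℕ} (hq : Fintype.card F = 2 * h + 1) {f r s : F[X]}
    (h0 : f.coeff 0 ≠ 0) (hn : ∀ c u, f ≠ C c * u ^ 2)
    (hd : 2 * d + f.natDegree < Fintype.card F) (hr : r.natDegree ≤ d) (hs : s.natDegree ≤ d)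
    (hX : X ^ Fintype.card F ∣ r + f ^ h * s) : r = 0 ∧ s = 0 := by
  obtain ⟨p, _, n, hp, hc⟩ := FiniteField.card' F
  have := Fact.mk hp
  have h1 : f ^ Fintype.card F = X ^ Fintype.card F * f.divX ^ Fintype.card F +
      C (f.coeff 0 ^ Fintype.card F) := by
    conv_lhs => rw [← X_mul_divX_add f]
    rw [hc, add_pow_char_pow, mul_pow, C_pow]
  set q := Fintype.card F
  have h2 : X ^ q ∣ r ^ 2 * f - C (f.coeff 0 ^ q) * s ^ 2 := by
    have : r ^ 2 * f - C (f.coeff 0 ^ q) * s ^ 2 =
        (r + f ^ h * s) * ((r - f ^ h * s) * f) + X ^ q * (f.divX ^ q * s ^ 2) := by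
      have h3 : f ^ q = f ^ h * f ^ h * f := by rw [hq]; ring
      linear_combination s ^ 2 * h1 - s ^ 2 * h3
    rw [this]
    exact dvd_add (hX.mul_right _) (dvd_mul_right _ _)
  have h3 : r ^ 2 * f = C (f.coeff 0 ^ q) * s ^ 2 := by
    refine sub_eq_zero.1 (eq_zero_of_dvd_of_natDegree_lt h2 ?_)
    rw [natDegree_X_pow]
    refine (natDegree_sub_le _ _).trans_lt (max_lt (natDegree_mul_le.trans_lt ?_)
      ((natDegree_C_mul_le _ _).trans_lt ?_))
    · have := natDegree_pow_le (p := r) (n := 2)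
      omega
    · have := natDegree_pow_le (p := s) (n := 2)
      omega
  have hr0 : r = 0 := by
    by_contra hr0
    have h4 : r ^ 2 ∣ s ^ 2 :=
      (isUnit_C.2 (pow_ne_zero q h0).isUnit).dvd_mul_left.1 ⟨f, h3.symm⟩
    obtain ⟨u, rfl⟩ := (IsIntegrallyClosed.pow_dvd_pow_iff two_ne_zero).1 h4
    refine hn (f.coeff 0 ^ q) u (mul_left_cancel₀ (pow_ne_zero 2 hr0) ?_)
    rw [h3]
    ring
  refine ⟨hr0, ?_⟩
  rw [hr0] at h3
  simpa [h0] using h3.symm

theorem all_zero {p J : ℕ} (u : Fin J → F[X]) (hu : ∀ j, X ^ p ∣ u j → u j = 0)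
    (h : ∑ j, u j * X ^ (p * j) = 0) (j : Fin J) : u j = 0 := by
  induction j using WellFoundedLT.induction with
  | ind j ih =>
    refine hu j ?_
    have h1 : X ^ (p * j) * X ^ p ∣ ∑ i ∈ univ.erase j, u i * X ^ (p * i) := by
      refine dvd_sum fun i hi => ?_
      rcases lt_or_gt_of_ne (ne_of_mem_erase hi) with h2 | h2
      · simp [ih i h2]
      · rw [← pow_add, ← mul_add_one]
        exact Dvd.dvd.mul_left (pow_dvd_pow _ (Nat.mul_le_mul_left _ h2)) _
    rw [← add_sum_erase _ _ (mem_univ j), add_eq_zero_iff_eq_neg'] at h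
    rw [h, dvd_neg, mul_comm (u j)] at h1
    exact (mul_dvd_mul_iff_left (pow_ne_zero _ X_ne_zero)).1 h1

theorem dvd_of_hasse {R : F[X]} {x : F} {l : ℕ} (h : ∀ k < l, (hasseDeriv k R).eval x = 0) :
    (X - C x) ^ l ∣ R := by
  rw [X_sub_C_pow_dvd_iff, X_pow_dvd_iff]
  intro k hk
  rw [← taylor_apply, taylor_coeff]
  exact h k hk

theorem stepanov [Fintype F] [DecidableEq F] {h d l J : ℕ} (hq : Fintype.card F = 2 * h + 1)
    {f : F[X]} (h0 : f.coeff 0 ≠ 0) (hn : ∀ c u, f ≠ C c * u ^ 2)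
    (hd : 2 * d + f.natDegree < Fintype.card F) (hl : l ≤ Fintype.card F)
    (hJ : l * (d + l * f.natDegree + J + 1) < 2 * (J + 1) * (d + 1)) {a : F} (ha : a ≠ 0) :
    #{x : F | f.eval x ^ h = a} * l ≤ (l + h) * f.natDegree + d + Fintype.card F * J := by
  have hf : f ≠ 0 := by rintro rfl; simp at h0
  obtain ⟨p, _, n, hp, hc⟩ := FiniteField.card' F
  have := Fact.mk hp
  have hz := fun r s => pair_zero (r := r) (s := s) hq h0 hn hd
  have hfr : ∀ x : F, (X - C x) ^ Fintype.card F = X ^ Fintype.card F - C x := fun x => by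
    conv_rhs => rw [← FiniteField.pow_card x]
    rw [hc, sub_pow_char_pow, C_pow]
  set q := Fintype.card F
  let V := degreeLT F (d + 1)
  have hV : ∀ u : V, (u : F[X]).natDegree ≤ d := fun u =>
    natDegree_le_iff_degree_le.2 (Order.le_of_lt_succ (by
      have := mem_degreeLT.1 u.2
      exact_mod_cast this))
  let T : Fin l → (Fin (J + 1) → V × V) →ₗ[F] F[X] := fun k =>
    ∑ j : Fin (J + 1), LinearMap.mulRight F (X ^ (j : ℕ)) ∘ₗ
      (LinearMap.mulLeft F (f ^ h) ∘ₗ hasseDeriv k ∘ₗ LinearMap.mulLeft F (f ^ l) ∘ₗ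
          V.subtype ∘ₗ LinearMap.fst _ _ _ +
        a • hasseDeriv k ∘ₗ LinearMap.mulLeft F (f ^ (l + h)) ∘ₗ V.subtype ∘ₗ
          LinearMap.snd _ _ _) ∘ₗ LinearMap.proj j
  have hT : ∀ k w, T k w = ∑ j : Fin (J + 1), (f ^ h * hasseDeriv k (f ^ l * ((w j).1 : F[X])) +
      a • hasseDeriv k (f ^ (l + h) * ((w j).2 : F[X]))) * X ^ (j : ℕ) := fun k w => by
    simp [T]
  let W : Fin l → Submodule F F[X] := fun k =>
    (degreeLT F (d + l * f.natDegree + J + 1)).map (LinearMap.mulLeft F (f ^ (l + h - k)))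
  have hm : ∀ (m : ℕ) (u : V), (f ^ m * (u : F[X])).natDegree ≤ m * f.natDegree + d :=
    fun m u => natDegree_mul_le.trans (add_le_add natDegree_pow_le (hV u))
  have hT' : ∀ k w, T k w ∈ W k := fun k w => by
    have hk := k.2
    obtain ⟨v, hv⟩ : f ^ (l + h - k) ∣ T k w := by
      rw [hT]
      refine dvd_sum fun j _ => Dvd.dvd.mul_right (dvd_add ?_ ?_) _
      · rw [show l + h - k = h + (l - k) by omega, pow_add]
        exact mul_dvd_mul_left _ (pow_dvd_hasse _ _ _ _)
      · rw [smul_eq_C_mul]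
        exact (pow_dvd_hasse _ _ _ _).mul_left _
    refine ⟨v, mem_degreeLT.2 ?_, hv.symm⟩
    rcases eq_or_ne v 0 with rfl | hv0
    · rw [degree_zero]
      exact WithBot.bot_lt_coe _
    have h1 : (T k w).natDegree ≤ (l + h) * f.natDegree + d + J := by
      rw [hT]
      refine natDegree_sum_le_of_forall_le _ _ fun j _ => natDegree_mul_le.trans ?_
      have h2 := (natDegree_hasseDeriv_le (f ^ l * ((w j).1 : F[X])) k).trans (Nat.sub_le _ _)
      have h3 := (natDegree_hasseDeriv_le (f ^ (l + h) * ((w j).2 : F[X])) k).trans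
        (Nat.sub_le _ _)
      have h4 := hm l (w j).1
      have h5 := hm (l + h) (w j).2
      have h6 := natDegree_smul_le a (hasseDeriv k (f ^ (l + h) * ((w j).2 : F[X])))
      have h7 := natDegree_mul_le (p := f ^ h) (q := hasseDeriv k (f ^ l * ((w j).1 : F[X])))
      have h8 := natDegree_pow_le (p := f) (n := h)
      have h9 := j.2
      rw [natDegree_X_pow]
      refine add_le_add ((natDegree_add_le _ _).trans (max_le ?_ ?_)) (by omega)
      · rw [add_mul]
        omega
      · omega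
    rw [hv, natDegree_mul (pow_ne_zero _ hf) hv0, natDegree_pow] at h1
    have h2 : (l + h) * f.natDegree ≤ (l + h - k) * f.natDegree + l * f.natDegree := by
      rw [← add_mul]
      exact Nat.mul_le_mul_right _ (by omega)
    rw [degree_eq_natDegree hv0, Nat.cast_lt]
    omega
  have hW : ∀ k, Module.finrank F (W k) ≤ d + l * f.natDegree + J + 1 := fun k =>
    (Submodule.finrank_map_le _ _).trans (by simp [(degreeLTEquiv F _).finrank_eq])
  obtain ⟨w, hw, hw0⟩ := (Submodule.ne_bot_iff _).1 (LinearMap.ker_ne_bot_of_finrank_lt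
    (f := LinearMap.pi fun k => (T k).codRestrict _ (hT' k)) (by
      rw [Module.finrank_pi_fintype F (M := fun k => W k)]
      refine (sum_le_card_nsmul _ _ _ fun k _ => hW k).trans_lt ?_
      simp only [V, Module.finrank_pi_fintype, Module.finrank_prod, sum_const,
        (degreeLTEquiv F _).finrank_eq, Module.finrank_self,
        card_univ, Fintype.card_fin, smul_eq_mul]
      linarith))
  have hw1 : ∀ k, T k w = 0 := fun k => congrArg Subtype.val (congrFun (LinearMap.mem_ker.1 hw) k)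
  set g : Fin (J + 1) → F[X] := fun j => f ^ l * ((w j).1 : F[X]) + f ^ (l + h) * ((w j).2 : F[X])
    with hg
  set R : F[X] := ∑ j : Fin (J + 1), g j * X ^ (q * j) with hR
  have hR0 : R ≠ 0 := fun h1 => hw0 (funext fun j => by
    have h2 : f ^ l * ∑ j : Fin (J + 1), (((w j).1 : F[X]) + f ^ h * ((w j).2 : F[X])) *
        X ^ (q * j) = 0 := by
      rw [← h1, hR, mul_sum]
      exact sum_congr rfl fun j _ => by rw [hg]; ring
    have h3 := fun j => hz _ _ (hV (w j).1) (hV (w j).2)
    have h4 := all_zero (fun j => ((w j).1 : F[X]) + f ^ h * ((w j).2 : F[X]))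
      (fun j hj => by simp [(h3 j hj).1, (h3 j hj).2])
      ((mul_eq_zero.1 h2).resolve_left (pow_ne_zero _ hf)) j
    have h5 := h3 j (by rw [h4]; exact dvd_zero _)
    exact Prod.ext (Subtype.ext h5.1) (Subtype.ext h5.2))
  have hdeg : R.natDegree ≤ (l + h) * f.natDegree + d + q * J := by
    refine natDegree_sum_le_of_forall_le _ _ fun j _ => natDegree_mul_le.trans ?_
    rw [natDegree_X_pow]
    refine add_le_add ((natDegree_add_le _ _).trans (max_le ((hm _ _).trans ?_) (hm _ _)))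
      (Nat.mul_le_mul_left q (Nat.le_of_lt_succ j.2))
    rw [add_mul]
    omega
  have hmul : ∀ x : F, f.eval x ^ h = a → l ≤ R.rootMultiplicity x := fun x hx => by
    rw [le_rootMultiplicity_iff hR0]
    have h1 : (X - C x) ^ l ∣ ∑ j : Fin (J + 1), x ^ (j : ℕ) • g j := by
      refine dvd_of_hasse fun k hk => mul_left_cancel₀ ha ?_
      have h1 := congrArg (eval x) ((hT ⟨k, hk⟩ w).symm.trans (hw1 _))
      rw [mul_zero, ← eval_zero (x := x), ← h1, map_sum, eval_finsetSum, eval_finsetSum, mul_sum]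
      refine sum_congr rfl fun j _ => ?_
      simp only [hg, map_smul, map_add, eval_add, eval_mul, eval_pow, eval_X, eval_smul, hx,
        smul_eq_mul]
      ring
    have h2 : (X - C x) ^ l ∣ R - ∑ j : Fin (J + 1), x ^ (j : ℕ) • g j := by
      rw [hR, ← sum_sub_distrib]
      refine dvd_sum fun j _ => (pow_dvd_pow _ hl).trans ?_
      rw [hfr, smul_eq_C_mul, mul_comm (C _), ← mul_sub, pow_mul, C_pow]
      exact (sub_dvd_pow_sub_pow _ _ _).mul_left _
    simpa using dvd_add h2 h1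
  refine le_trans ?_ ((card_roots' R).trans hdeg)
  rw [← Multiset.toFinset_sum_count_eq, ← smul_eq_mul]
  rcases Nat.eq_zero_or_pos l with rfl | hl0
  · simp
  refine (card_nsmul_le_sum _ (fun x => R.roots.count x) _ fun x hx => ?_).trans
    (sum_le_sum_of_subset fun x hx => ?_)
  · rw [count_roots]
    exact hmul x (mem_filter.1 hx).2
  · rw [Multiset.mem_toFinset, ← Multiset.one_le_count_iff_mem, count_roots]
    exact hl0.trans_le (hmul x (mem_filter.1 hx).2)

end Pool.Agent.Lib.MP_a8c702_nt.RG
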